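import Pool.Agent.Work.MP_2738db_nt_ZZ.Interface
import Pool.Agent.Work.MP_2738db_nt_S.Interface
import Pool.Agent.Work.MP_2738db_nt_X.Interface

/-!
COPRIME EXPONENTS theorem for the Fermat-Catalan conjecture (MP_2738db): for 100 percent of the
integers `c` no power of `c` is the sum or the difference of two coprime perfect powers `a ^ m`,
`b ^ n` with `gcd (m, n) ≥ 2`, except for the differences of two squares (`m = n = 2`).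
Statements of the blocks of phase 2 (`gcd (m, n) = 2`); proofs: `BLUEPRINT.md`.
-/

set_option autoImplicit false

namespace Pool.Agent.Work.MP_2738db_nt_C

open Finset
open Pool.Agent.Work.MP_2738db_nt_ZZ (Pl)

/-! ### The general sieve -/

/-- `Q` is a good set of sieving primes for the integers up to `M`. -/
def Sv (M : ℕ) (κ : ℝ) (Q : Finset ℕ) : Prop :=
  ∀ R : (q : ℕ) → ZMod q → Prop, (∀ q ∈ Q, 6 * Nat.card {x : ZMod q // R q x} ≤ 5 * q) →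
    (({t : ℕ | 1 ≤ t ∧ t ≤ M ∧ ∀ q ∈ Q, R q (t : ZMod q)}.ncard : ℕ) : ℝ) ≤ (M : ℝ) ^ (1 - κ)

/-- **GEN**: sets of sieving primes `Q l k₀` for all primes `l ≤ exp ((log M) ^ (1 - ε))` and all `k`
with few prime factors. -/
def Stmt_Gen : Prop :=
  ∀ ε : ℝ, 0 < ε → ε < 1 → ∃ κ : ℝ, 0 < κ ∧ κ < 1 / 10 ∧ ∃ M₀ : ℕ, ∀ M P : ℕ, M₀ ≤ M → 1 ≤ P →
    Real.log P ≤ Real.exp (Real.log M ^ (1 - ε)) →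
    ∃ (K : ℕ) (Q : ℕ → ℕ → Finset ℕ) (L : ℕ → ℕ → ℕ), (K : ℝ) ≤ (M : ℝ) ^ κ ∧
      (∀ l k₀ : ℕ, 1 ≤ l → l ≤ K → 1 ≤ k₀ → k₀ ≤ K → 1 ≤ L l k₀ ∧ 2 ∣ L l k₀ ∧
        (L l k₀ : ℝ) * (10 * Real.log M) ^ (L l k₀).primeFactors.card ≤ (M : ℝ) ^ κ) ∧
      (∀ l k₀ q : ℕ, q ∈ Q l k₀ →
        q.Prime ∧ ¬ q ∣ P ∧ ¬ q ∣ L l k₀ ∧ l ∣ q - 1 ∧ q - 1 ∣ L l k₀) ∧
      ∀ l k : ℕ, l.Prime → Real.log l ≤ Real.log M ^ (1 - ε) → 1 ≤ k →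
        (k.primeFactors.card : ℝ) ≤ Real.exp (Real.log M ^ (1 - ε)) →
        l ≤ K ∧ ∃ k₀ : ℕ, 1 ≤ k₀ ∧ k₀ ≤ K ∧ (∀ q ∈ Q l k₀, 400 * Nat.gcd k (q - 1) ^ 2 ≤ q) ∧
          Sv M (10 * κ) (Q l k₀)

/-! ### Structure -/

/-- **STO**: `x ^ 2 - y ^ 2 = c ^ k`, `c` odd. -/
def Stmt_Sto : Prop :=
  ∀ x y c k : ℕ, Nat.Coprime x y → 1 ≤ y → ¬ 2 ∣ c → 1 ≤ k → y ^ 2 + c ^ k = x ^ 2 →
    ∃ u v : ℕ, c = u * v ∧ 1 ≤ u ∧ u < v ∧ Nat.Coprime u v ∧ ¬ 2 ∣ u ∧ ¬ 2 ∣ v ∧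
      2 * x = v ^ k + u ^ k ∧ 2 * y + u ^ k = v ^ k

/-- **STE**: `x ^ 2 - y ^ 2 = c ^ k`, `c` even. -/
def Stmt_Ste : Prop :=
  ∀ x y c k : ℕ, Nat.Coprime x y → 1 ≤ y → 1 ≤ c → 2 ∣ c → 1 ≤ k → y ^ 2 + c ^ k = x ^ 2 →
    ∃ u V : ℕ, c = u * V ∧ 1 ≤ u ∧ 1 ≤ V ∧ Nat.Coprime u V ∧ ¬ 2 ∣ u ∧ 8 ∣ V ^ k ∧
      4 * x = 4 * u ^ k + V ^ k ∧ (4 * y + V ^ k = 4 * u ^ k ∨ 4 * y + 4 * u ^ k = V ^ k)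

/-- the equations for even `c` -/
def EqE (u V k l A : ℕ) : Prop :=
  4 * u ^ k + V ^ k = 4 * A ^ l ∨ 4 * u ^ k = V ^ k + 4 * A ^ l ∨ V ^ k = 4 * u ^ k + 4 * A ^ l

/-- the equations for odd `c` -/
def EqO (u v k l A : ℕ) : Prop :=
  v ^ k + u ^ k = 2 * A ^ l ∨ v ^ k = u ^ k + 2 * A ^ l

/-! ### Even `c` -/

/-- **SVE**: the sieve for even `c` (no parity condition is needed). -/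
def Stmt_Sve : Prop :=
  ∀ ε : ℝ, 0 < ε → ε < 1 → ∃ κ : ℝ, 0 < κ ∧ ∃ N₀ : ℕ, ∀ N : ℕ, N₀ ≤ N →
    (({c : ℕ | 1 ≤ c ∧ c ≤ N ∧ ∃ u V k l A : ℕ, c = u * V ∧ 1 ≤ k ∧ l.Prime ∧
      Real.log l ≤ Real.log N ^ (1 - ε) ∧
      (k.primeFactors.card : ℝ) ≤ Real.exp (Real.log N ^ (1 - ε)) ∧
      EqE u V k l A}.ncard : ℕ) : ℝ) ≤ (N : ℝ) ^ (1 - κ)

/-- **XE**: large prime exponents `l` are impossible, `c` even. -/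
def Stmt_Xe : Prop :=
  ∃ C : ℝ, 1 ≤ C ∧ ∀ (u V k l A : ℕ) (U : ℝ), 1 ≤ u → 1 ≤ V → Nat.Coprime u V → ¬ 2 ∣ u →
    8 ∣ V ^ k → 1 ≤ k → l.Prime → 2 ≤ A → 1 ≤ U → Real.log u ≤ U → Real.log V ≤ U →
    C * U ^ 2 * (1 + Real.log l) ^ 2 < l → ¬ EqE u V k l A

/-- **KE**: bound for `k`, `c` even. -/
def Stmt_Ke : Prop :=
  ∃ C : ℝ, 1 ≤ C ∧ ∀ (u V k l A : ℕ) (U : ℝ), 1 ≤ u → 1 ≤ V → Nat.Coprime u V → ¬ 2 ∣ u →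
    8 ∣ V ^ k → 1 ≤ k → l.Prime → 1 ≤ A → 2 ≤ U → (l : ℝ) ≤ U → Real.log u ≤ U →
    Real.log V ≤ U → EqE u V k l A → Real.log k ≤ U ^ C

/-- `c ^ k` is a difference of coprime squares `x ^ 2`, `y ^ 2`, and `x` or `y` is an `l`-th power. -/
def D2 (c : ℕ) : Prop :=
  ∃ k x y l A : ℕ, 1 ≤ k ∧ Nat.Coprime x y ∧ 1 ≤ y ∧ l.Prime ∧ y ^ 2 + c ^ k = x ^ 2 ∧
    (x = A ^ l ∨ y = A ^ l)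

/-- **FINE**: the theorem for even `c`. -/
def Stmt_Fe : Prop :=
  ∃ C κ : ℝ, 0 < κ ∧ ∀ N : ℕ, 1 ≤ N →
    (({c : ℕ | 1 ≤ c ∧ c ≤ N ∧ 2 ∣ c ∧ D2 c}.ncard : ℕ) : ℝ) ≤ C * (N : ℝ) ^ (1 - κ)

/-! ### Odd `c`: the sieve -/

/-- **RED**: the factor `v ^ b ± u ^ b` of `v ^ k ± u ^ k`, where `b` is the part of `k` without odd
prime factors dividing `L`. -/
def Stmt_Red : Prop :=
  ∀ u v k l A L : ℕ, 1 ≤ u → u < v → Nat.Coprime u v → ¬ 2 ∣ u → ¬ 2 ∣ v → 1 ≤ k → l.Prime →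
    1 ≤ L → 2 ∣ L →
    (v ^ k + u ^ k = 2 * A ^ l → ∃ b δ B : ℕ, 1 ≤ b ∧ b ∣ k ∧
      (∀ p : ℕ, p.Prime → p ∣ L → p ≠ 2 → ¬ p ∣ b) ∧ 1 ≤ δ ∧
      (∀ p : ℕ, p.Prime → p ∣ δ → p ∣ L) ∧ δ.factorization 2 < l ∧
      (∀ p : ℕ, p.Prime → p ≠ 2 → (δ.factorization p : ℝ) ≤ 2 * p * Real.log v) ∧
      v ^ b + u ^ b = δ * B ^ l) ∧
    (v ^ k = u ^ k + 2 * A ^ l → ∃ b δ B : ℕ, 1 ≤ b ∧ b ∣ k ∧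
      (∀ p : ℕ, p.Prime → p ∣ L → p ≠ 2 → ¬ p ∣ b) ∧ 1 ≤ δ ∧
      (∀ p : ℕ, p.Prime → p ∣ δ → p ∣ L) ∧ δ.factorization 2 < l ∧
      (∀ p : ℕ, p.Prime → p ≠ 2 → (δ.factorization p : ℝ) ≤ 2 * p * Real.log v) ∧
      v ^ b = u ^ b + δ * B ^ l)

/-- **NDL**: the number of the integers `δ` in RED. -/
def Stmt_Ndl : Prop :=
  ∀ (L l : ℕ) (W : ℝ), 1 ≤ L → 1 ≤ l → 1 ≤ W →
    ({δ : ℕ | 1 ≤ δ ∧ (∀ p : ℕ, p.Prime → p ∣ δ → p ∣ L) ∧ δ.factorization 2 < l ∧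
      ∀ p : ℕ, p.Prime → p ≠ 2 → (δ.factorization p : ℝ) ≤ 2 * p * W}.Finite) ∧
    (({δ : ℕ | 1 ≤ δ ∧ (∀ p : ℕ, p.Prime → p ∣ δ → p ∣ L) ∧ δ.factorization 2 < l ∧
      ∀ p : ℕ, p.Prime → p ≠ 2 → (δ.factorization p : ℝ) ≤ 2 * p * W}.ncard : ℕ) : ℝ) ≤
      l * (L * (3 * W) ^ L.primeFactors.card)

/-- **SVO**: the sieve for odd `c`, all exponents `k` at once. -/
def Stmt_Svo : Prop :=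
  ∀ ε : ℝ, 0 < ε → ε < 1 → ∃ κ : ℝ, 0 < κ ∧ ∃ N₀ : ℕ, ∀ N : ℕ, N₀ ≤ N →
    (({c : ℕ | 1 ≤ c ∧ c ≤ N ∧ ∃ u v k l A : ℕ, c = u * v ∧ 1 ≤ u ∧ u < v ∧ Nat.Coprime u v ∧
      ¬ 2 ∣ u ∧ ¬ 2 ∣ v ∧ 1 ≤ k ∧ l.Prime ∧ Real.log l ≤ Real.log N ^ (1 - ε) ∧
      EqO u v k l A}.ncard : ℕ) : ℝ) ≤ (N : ℝ) ^ (1 - κ)

/-! ### Odd `c`: large prime exponents -/

/-- **TLC**: two logarithms theorem for a positive rational and a positive integer, without the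
condition `gcd (l, K) = 1`. -/
def Stmt_Tlc : Prop :=
  ∃ C : ℝ, 1 ≤ C ∧ ∀ (X₁ X₂ Y K l : ℕ) (A B : ℝ), l.Prime → 1 ≤ X₁ → 1 ≤ X₂ → 2 ≤ Y → 1 ≤ K →
    1 ≤ A → 1 ≤ B → Real.log X₁ ≤ A → Real.log X₂ ≤ A → Real.log Y ≤ B → (K : ℝ) ≤ A * l →
    C * B * (1 + Real.log l) ≤ l → X₁ ^ l ≠ X₂ ^ l * Y ^ K →
    Real.exp (-(C * (A * B) * (1 + Real.log l) ^ 2)) ≤
      |l * (Real.log X₁ - Real.log X₂) - K * Real.log Y|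

/-- **XO1**: even `k`. -/
def Stmt_Xo1 : Prop :=
  ∃ C : ℝ, 1 ≤ C ∧ ∀ (u v k l A : ℕ) (U : ℝ), 1 ≤ u → u < v → Nat.Coprime u v → ¬ 2 ∣ u →
    ¬ 2 ∣ v → 1 ≤ k → 2 ∣ k → l.Prime → 2 ≤ A → 1 ≤ U → Real.log v ≤ U →
    1 ≤ U * (Real.log v - Real.log u) → C * U ^ 4 * (1 + Real.log l) ^ 2 < l →
    ¬ EqO u v k l A

/-- **FAC**: the factors of `v ^ k ± u ^ k = 2 A ^ l` for an odd prime `r ∣ k`: `e = 1` (plus) or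
`e = -1` (minus). -/
def Stmt_Fac : Prop :=
  ∀ (u v k l A r : ℕ) (e : ℤ), (e = 1 ∨ e = -1) → 1 ≤ u → u < v → Nat.Coprime u v → ¬ 2 ∣ u →
    ¬ 2 ∣ v → 1 ≤ k → r.Prime → 3 ≤ r → l.Prime → 2 ≤ l → (v : ℝ) ^ r < 2 ^ (l - 1) →
    (v : ℤ) ^ (r * k) + e * (u : ℤ) ^ (r * k) = 2 * (A : ℤ) ^ l →
    (∃ B₀ : ℕ, (v : ℤ) ^ (r * k) + e * (u : ℤ) ^ (r * k) =
      ((v : ℤ) ^ k + e * (u : ℤ) ^ k) * (B₀ : ℤ) ^ l) ∨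
    (∃ k₂ B₀ B₁ : ℕ, 1 ≤ k₂ ∧ k = r * k₂ ∧ 1 ≤ B₁ ∧
      (v : ℤ) ^ (r * k) + e * (u : ℤ) ^ (r * k) =
        ((v : ℤ) ^ k + e * (u : ℤ) ^ k) * (r * (B₀ : ℤ) ^ l) ∧
      (v : ℤ) ^ k + e * (u : ℤ) ^ k =
        ((v : ℤ) ^ k₂ + e * (u : ℤ) ^ k₂) * (r * (B₁ : ℤ) ^ l))

/-- **XO2**: `k` has an odd prime factor `r` which is small compared with `l`. -/
def Stmt_Xo2 : Prop :=
  ∃ C : ℝ, 1 ≤ C ∧ ∀ (u v k l A r : ℕ) (U : ℝ), 1 ≤ u → u < v → Nat.Coprime u v → ¬ 2 ∣ u →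
    ¬ 2 ∣ v → 1 ≤ k → r.Prime → 3 ≤ r → r ∣ k → l.Prime → 2 ≤ A → 1 ≤ U → Real.log v ≤ U →
    1 ≤ U * (Real.log v - Real.log u) → C * r ^ 2 * U ^ 4 * (1 + Real.log l) ^ 2 < l →
    ¬ EqO u v k l A

/-- **XO3**: odd `k` without small prime factors: `(v ± u) / 2` has no small prime factors. -/
def Stmt_Xo3 : Prop :=
  ∀ u v k l A z : ℕ, 1 ≤ u → u < v → Nat.Coprime u v → ¬ 2 ∣ u → ¬ 2 ∣ v → 1 ≤ k → ¬ 2 ∣ k →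
    (∀ p : ℕ, p.Prime → p ∣ k → z < p) → 2 ≤ l → 2 * v < 2 ^ l →
    (v ^ k + u ^ k = 2 * A ^ l →
      ∃ w : ℕ, v + u = 2 * w ∧ ∀ p : ℕ, p.Prime → p ≤ z → ¬ p ∣ w) ∧
    (v ^ k = u ^ k + 2 * A ^ l →
      ∃ w : ℕ, v = u + 2 * w ∧ ∀ p : ℕ, p.Prime → p ≤ z → ¬ p ∣ w)

/-! ### Odd `c`: the leftover -/

/-- the number of primes `p ≤ z` dividing `n` -/
def om (z n : ℕ) : ℕ := ((Icc 1 z).filter (fun p => p.Prime ∧ p ∣ n)).card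

/-- **BON**: Bonferroni inequality. -/
def Stmt_Bon : Prop :=
  ∀ (S : Finset ℕ) (a : ℕ → ℝ) (r : ℕ), (∀ i ∈ S, 0 ≤ a i ∧ a i ≤ 1) → Even r →
    ∏ i ∈ S, (1 - a i) ≤ ∑ T ∈ S.powerset.filter (fun T => T.card ≤ r), (-1) ^ T.card * ∏ i ∈ T, a i

/-- **MER**: Mertens' theorem. -/
def Stmt_Mer : Prop :=
  ∃ C : ℝ, 1 ≤ C ∧ ∀ z : ℕ, 2 ≤ z →
    |∑ p ∈ (Icc 1 z).filter Nat.Prime, (1 : ℝ) / p - Real.log (Real.log z)| ≤ C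

/-- **BRS**: Brun's pure sieve with weights `(2/3) ^ ω`: `n` with `(n ± u) / 2` without small primes. -/
def Stmt_Brs : Prop :=
  ∃ C : ℝ, 1 ≤ C ∧ ∀ (X z u : ℕ) (e : ℤ) (S : Finset ℕ), (e = 1 ∨ e = -1) → 3 ≤ z → 1 ≤ u →
    C * (1 + Real.log (1 + Real.log z)) * Real.log z ≤ Real.log X →
    (∀ n ∈ S, 1 ≤ n ∧ n ≤ X ∧ ∀ p : ℕ, p.Prime → p ≤ z → ¬ p ∣ 2 * u →
      ¬ (p : ℤ) ∣ (n : ℤ) + e * u) →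
    ∑ n ∈ S, (2 / 3 : ℝ) ^ om z n ≤
      C * X / Real.log z ^ (4 / 3 : ℝ) * ((u : ℝ) / u.totient) ^ 2

/-- **P3**: the sum over the smaller factor. -/
def Stmt_P3 : Prop :=
  ∃ C : ℝ, 1 ≤ C ∧ ∀ Y z : ℕ, 2 ≤ z → z ≤ Y →
    ∑ u ∈ Icc 1 Y, (2 / 3 : ℝ) ^ om z u * ((u : ℝ) / u.totient) ^ 2 / u ≤
      C * Real.log Y / Real.log z ^ (1 / 3 : ℝ)

/-- **P4**: few integers have many small prime factors. -/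
def Stmt_P4 : Prop :=
  ∃ C : ℝ, 1 ≤ C ∧ ∀ N z : ℕ, 3 ≤ N → 2 ≤ z → z ≤ N →
    (({c : ℕ | 1 ≤ c ∧ c ≤ N ∧ 4 / 3 * Real.log (Real.log N) < (om z c : ℝ)}.ncard : ℕ) : ℝ) ≤
      C * N / Real.log N ^ (1 / 20 : ℝ)

/-- **PSV**: few odd `c` have a factorization `c = u v` with `(v ± u) / 2` without small primes. -/
def Stmt_Psv : Prop :=
  ∃ C δ : ℝ, 0 < δ ∧ ∀ N : ℕ, 2 ≤ N →
    (({c : ℕ | 1 ≤ c ∧ c ≤ N ∧ ¬ 2 ∣ c ∧ ∃ u v w : ℕ, c = u * v ∧ Nat.Coprime u v ∧ u < v ∧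
      (v + u = 2 * w ∨ v = u + 2 * w) ∧
      ∀ p : ℕ, p.Prime → (p : ℝ) ≤ Real.exp (Real.log N ^ (1 - 1 / 30 : ℝ)) → ¬ p ∣ w}.ncard :
        ℕ) : ℝ) ≤ C * N / Real.log N ^ δ

/-- **CLS**: close factors. -/
def Stmt_Cls : Prop :=
  ∃ C : ℝ, ∀ N : ℕ, 2 ≤ N →
    (({c : ℕ | 1 ≤ c ∧ c ≤ N ∧ ∃ u v : ℕ, c = u * v ∧ 1 ≤ u ∧ u < v ∧
      Real.log N * (Real.log v - Real.log u) < 1}.ncard : ℕ) : ℝ) ≤ C * N / Real.log N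

/-- **FINO**: the theorem for odd `c`. -/
def Stmt_Fo : Prop :=
  ∃ C δ : ℝ, 0 < δ ∧ ∀ N : ℕ, 2 ≤ N →
    (({c : ℕ | 1 ≤ c ∧ c ≤ N ∧ ¬ 2 ∣ c ∧ D2 c}.ncard : ℕ) : ℝ) ≤ C * N / Real.log N ^ δ

/-! ### The theorem -/

/-- **COPRIME EXPONENTS** -/
def Stmt_CC : Prop :=
  ∃ C δ : ℝ, 0 < δ ∧ ∀ N : ℕ, 2 ≤ N →
    (({c : ℕ | 1 ≤ c ∧ c ≤ N ∧ ∃ a b m n k : ℕ, 1 ≤ a ∧ 1 ≤ b ∧ Nat.Coprime a b ∧ 1 ≤ m ∧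
      1 ≤ n ∧ 1 ≤ k ∧ 2 ≤ Nat.gcd m n ∧
      (a ^ m + b ^ n = c ^ k ∨ b ^ n + c ^ k = a ^ m ∧ ¬ (m = 2 ∧ n = 2))}.ncard : ℕ) :
      ℝ) ≤ C * N / Real.log N ^ δ

end Pool.Agent.Work.MP_2738db_nt_C
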